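import Pool.Agent.TH844.DL.Nodes

/-! Assembly of the archimedean bound. -/

open Finset Polynomial Pool.Agent.H337R2 Pool.Agent.LP

namespace Pool.Agent.TH844.DL

noncomputable section

/-- double sum -/
def E2 (Y : Finset ℝ) : ℝ := ∑ y ∈ Y, ∑ z ∈ Y, Real.log |y - z|

lemma E2_eq (Y : Finset ℝ) : ∑ y ∈ Y, ∑ z ∈ Y.erase y, Real.log |y - z| = E2 Y := by
  refine sum_congr rfl fun y hy => ?_
  rw [← add_sum_erase Y _ hy, sub_self, abs_zero, Real.log_zero, zero_add]

lemma E2_insert {Y : Finset ℝ} {a : ℝ} (ha : a ∉ Y) :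
    E2 (insert a Y) = E2 Y + 2 * ∑ z ∈ Y, Real.log |a - z| := by
  unfold E2
  rw [sum_insert ha]
  have h1 : ∀ y ∈ Y, ∑ z ∈ insert a Y, Real.log |y - z| = Real.log |a - y| + ∑ z ∈ Y, Real.log |y - z| := by
    intro y _
    rw [sum_insert ha, abs_sub_comm]
  rw [sum_congr rfl h1, sum_add_distrib, sum_insert ha, sub_self, abs_zero, Real.log_zero]
  ring

lemma PY_pos (Y : Finset ℝ) (s : ℝ) : 0 < PY Y s :=
  prod_pos fun u _ => by positivity

lemma PY_insert {Y : Finset ℝ} {a : ℝ} (ha : a ∉ Y) (s : ℝ) : PY (insert a Y) s = (|s - a| + 1) * PY Y s := by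
  unfold PY
  rw [prod_insert ha]

/-- the three sets of nodes -/
lemma sets (N m : ℕ) (hN : 1 ≤ N) (h1 : 4 * (10000 * N) - 1 ≤ m) (h2 : m ≤ 4 * (10000 * N) + 1) :
    ∃ Y : Finset ℝ, Y.card = m ∧ (∀ s : ℝ, 1 ≤ s → PY Y s ≤ (10000 * N + s) ^ 2 * PY (YN N) s) ∧
      E2 (YN N) - 16 * (10000 * N) * Real.log (10000 * N) ≤ E2 Y := by
  obtain ⟨hc, hr⟩ := A_card N hN
  have hN0 : (1 : ℝ) ≤ N := by exact_mod_cast hN
  obtain ⟨n, hn⟩ : ∃ n : ℝ, n = 10000 * N := ⟨_, rfl⟩
  rw [← hn]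
  have hn1 : 10000 ≤ n := by linarith
  have hl0 : 0 ≤ Real.log n := Real.log_nonneg (by linarith)
  have hone : ∀ s : ℝ, 1 ≤ s → PY (YN N) s ≤ (n + s) ^ 2 * PY (YN N) s := by
    intro s hs
    have := PY_pos (YN N) s
    have h3 : 1 ≤ (n + s) ^ 2 := by nlinarith
    nlinarith
  rcases (by omega : m = 4 * (10000 * N) - 1 ∨ m = 4 * (10000 * N) ∨ m = 4 * (10000 * N) + 1) with h | h | h
  · have hne : (YN N).Nonempty := by
      rw [← card_pos, hc]
      omega
    obtain ⟨a, ha⟩ := hne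
    have hna : a ∉ (YN N).erase a := notMem_erase a _
    refine ⟨(YN N).erase a, ?_, ?_, ?_⟩
    · rw [card_erase_of_mem ha, hc, h]
      omega
    · intro s hs
      refine le_trans ?_ (hone s hs)
      have h4 := PY_insert hna s
      rw [insert_erase ha] at h4
      rw [h4]
      have h5 := PY_pos ((YN N).erase a) s
      have := abs_nonneg (s - a)
      nlinarith
    · have h4 := E2_insert hna
      rw [insert_erase ha] at h4
      rw [h4]
      have h5 : ∑ z ∈ (YN N).erase a, Real.log |a - z| ≤ ∑ z ∈ (YN N).erase a, 2 * Real.log n := by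
        refine sum_le_sum fun z hz => ?_
        rw [mem_erase] at hz
        have h6 := hr a ha
        have h7 := hr z hz.2
        have h8 : 0 < |a - z| := abs_pos.2 (sub_ne_zero.2 (Ne.symm hz.1))
        have h9 : |a - z| ≤ n * n := by
          rw [abs_le]
          have : 168300 * (N : ℝ) ≤ n * n := by rw [hn]; nlinarith
          constructor <;> linarith
        calc Real.log |a - z| ≤ Real.log (n * n) := Real.log_le_log h8 h9
          _ = 2 * Real.log n := by rw [Real.log_mul (by linarith) (by linarith)]; ring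
      rw [sum_const, nsmul_eq_mul, card_erase_of_mem ha, hc] at h5
      have h10 : ((40000 * N - 1 : ℕ) : ℝ) ≤ 4 * n := by
        rw [hn]
        have : ((40000 * N - 1 : ℕ) : ℝ) ≤ ((40000 * N : ℕ) : ℝ) := by exact_mod_cast Nat.sub_le _ _
        push_cast at this
        linarith
      have h11 : ((40000 * N - 1 : ℕ) : ℝ) * (2 * Real.log n) ≤ 4 * n * (2 * Real.log n) :=
        mul_le_mul_of_nonneg_right h10 (by linarith)
      linarith
  · refine ⟨YN N, by rw [hc, h]; ring, hone, ?_⟩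
    have : 0 ≤ 16 * n * Real.log n := by positivity
    linarith
  · have hna : (168300 * (N : ℝ) + 1) ∉ YN N := by
      intro hmem
      have := (hr _ hmem).2
      linarith
    refine ⟨insert (168300 * (N : ℝ) + 1) (YN N), ?_, ?_, ?_⟩
    · rw [card_insert_of_notMem hna, hc, h]
      ring
    · intro s hs
      rw [PY_insert hna]
      apply mul_le_mul_of_nonneg_right _ (PY_pos _ _).le
      have h3 : |s - (168300 * (N : ℝ) + 1)| ≤ s + (168300 * (N : ℝ) + 1) := by
        rw [abs_le]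
        constructor <;> linarith
      have h4 : 168300 * (N : ℝ) = 16.83 * n := by rw [hn]; ring
      rw [h4] at h3 ⊢
      nlinarith
    · rw [E2_insert hna]
      have h5 : 0 ≤ ∑ z ∈ YN N, Real.log |168300 * (N : ℝ) + 1 - z| := by
        refine sum_nonneg fun z hz => Real.log_nonneg ?_
        have := (hr z hz).2
        rw [abs_of_nonneg (by linarith)]
        linarith
      have : 0 ≤ 16 * n * Real.log n := by positivity
      linarith

/-- the exponent of one term -/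
lemma expo (hc : S_cert) (ht : S_tail) {C n x : ℝ} (hC : 0 ≤ C) (hn : 10000 ≤ n) (hnC : C + 4 ≤ n) (hx : 1 ≤ x) :
    n * (2 * UU (x / n) + Ph (x / n)) - x * Real.log 2 + C * Real.log (n + x) ≤
      -1.38 * n + C * (2 * Real.log n) + 26 - x / n := by
  have hn0 : 0 < n := by linarith
  have hl2 : 0.6931 * x ≤ x * Real.log 2 := by
    have := Real.log_two_gt_d9
    nlinarith
  have hxn : x / n * n = x := by field_simp
  have h27 : Real.log (27 * n) ≤ 2 * Real.log n := by
    rw [two_mul, ← Real.log_mul hn0.ne' hn0.ne']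
    exact Real.log_le_log (by positivity) (by nlinarith)
  have h27C := mul_le_mul_of_nonneg_left h27 hC
  rcases le_total (x / n) 26 with h | h
  · have h1 := hc (x / n) (by positivity) h
    have h2 := mul_le_mul_of_nonneg_left h1 hn0.le
    have h3 : Real.log (n + x) ≤ Real.log (27 * n) := by
      apply Real.log_le_log (by positivity)
      have : x / n * n ≤ 26 * n := mul_le_mul_of_nonneg_right h hn0.le
      rw [hxn] at this
      linarith
    have h4 := mul_le_mul_of_nonneg_left h3 hC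
    have h5 : n * (0.6931 * (x / n) - 1.38) = 0.6931 * x - 1.38 * n := by
      field_simp
    rw [h5] at h2
    linarith
  · have h1 := ht (x / n) h
    have h2 := mul_le_mul_of_nonneg_left h1 hn0.le
    have h6 : 26 * n ≤ x := by
      have : 26 * n ≤ x / n * n := mul_le_mul_of_nonneg_right h hn0.le
      rwa [hxn] at this
    have h3 : Real.log (n + x) ≤ Real.log (27 * n) + (x - 26 * n) / (27 * n) := by
      have h7 : Real.log ((n + x) / (27 * n)) ≤ (n + x) / (27 * n) - 1 :=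
        Real.log_le_sub_one_of_pos (by positivity)
      rw [Real.log_div (by positivity) (by positivity)] at h7
      have h8 : (n + x) / (27 * n) - 1 = (x - 26 * n) / (27 * n) := by
        field_simp
        ring
      linarith
    have h4 := mul_le_mul_of_nonneg_left h3 hC
    have h5 : n * (0.6931 * (x / n) - 1.38 - (x / n - 26) / 4) = 0.6931 * x - 1.38 * n - (x - 26 * n) / 4 := by
      field_simp
    rw [h5] at h2
    have h9 : 26 - x / n = -((x - 26 * n) / n) := by
      field_simp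
      ring
    have h10 : C * ((x - 26 * n) / (27 * n)) + (x - 26 * n) / n ≤ (x - 26 * n) / 4 := by
      have e : C * ((x - 26 * n) / (27 * n)) + (x - 26 * n) / n = (x - 26 * n) * ((C / 27 + 1) / n) := by
        field_simp
      rw [e]
      have h11 : (C / 27 + 1) / n ≤ 1 / 4 := by
        rw [div_le_div_iff₀ hn0 (by norm_num)]
        linarith
      have := mul_le_mul_of_nonneg_left h11 (by linarith : 0 ≤ x - 26 * n)
      linarith
    linarith

/-- bound of the functional on products of Lagrange polynomials -/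
theorem T_bound (h3 : S_entry) (h4 : S_weight) (h5 : S_cert) (h6 : S_tail) : ∃ C : ℝ, 0 < C ∧ ∃ N0 : ℕ,
    ∀ N ≥ N0, ∀ (α β : ℝ) (Y : Finset ℝ), (∀ s : ℝ, 1 ≤ s → PY Y s ≤ (10000 * N + s) ^ 2 * PY (YN N) s) →
      ∀ T : ℝ[X] →ₗ[ℝ] ℝ, (∀ f : ℝ[X], HasSum (tm (10000 * N) (5 * (10000 * N)) α β f) (T f)) →
      ∀ y ∈ Y, ∀ z ∈ Y, |T (lag Y y * lag Y z)| ≤ (|α| + |β|) *
        Real.exp (-1.38 * (10000 * N) + 5 * (10000 * N) * Real.log (10000 * N) + C * Real.log (10000 * N)) := by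
  obtain ⟨C1, hC1, hw⟩ := h4
  obtain ⟨C2, hC2, hp⟩ := A_pot
  obtain ⟨C3, hC3⟩ : ∃ C3 : ℝ, C3 = C1 + 2 * C2 + 4 := ⟨_, rfl⟩
  have hC30 : 0 ≤ C3 := by linarith
  refine ⟨2 * C3 + 29, by linarith, ⌈C3⌉₊ + 5, ?_⟩
  intro N hN α β Y hY T hT y hy z hz
  have hN1 : 1 ≤ N := by omega
  have hNC : C3 + 4 ≤ N := by
    have := Nat.le_ceil C3
    have h9 : ((⌈C3⌉₊ + 5 : ℕ) : ℝ) ≤ N := by exact_mod_cast hN
    push_cast at h9
    linarith
  have hN0 : (1 : ℝ) ≤ N := by exact_mod_cast hN1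
  obtain ⟨n, hn⟩ : ∃ n : ℝ, n = 10000 * N := ⟨_, rfl⟩
  have hcast : ((10000 * N : ℕ) : ℝ) = n := by rw [hn]; push_cast; ring
  rw [← hn] at hY ⊢
  have hn0 : 0 < n := by linarith
  have hn1 : 10000 ≤ n := by linarith
  have hnC : C3 + 4 ≤ n := by linarith
  have hL1 : 1 ≤ Real.log n := by
    rw [Real.le_log_iff_exp_le (by linarith)]
    linarith [Real.exp_one_lt_d9]
  obtain ⟨K, hK⟩ : ∃ K : ℝ, K = (|α| + |β|) * (5 * n + 2) *
    Real.exp (-1.38 * n + 5 * n * Real.log n + C3 * (2 * Real.log n) + 26) := ⟨_, rfl⟩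
  have hK0 : 0 ≤ K := by rw [hK]; positivity
  -- termwise
  have hterm : ∀ s : ℕ, ‖tm (10000 * N) (5 * (10000 * N)) α β (lag Y y * lag Y z) s‖ ≤
      K * (Real.exp (-(1 / n)) * Real.exp (-(1 / n)) ^ s) := by
    intro s
    rw [Real.norm_eq_abs]
    obtain ⟨x, hx⟩ : ∃ x : ℝ, x = (s : ℝ) + 1 := ⟨_, rfl⟩
    have hx1 : 1 ≤ x := by rw [hx]; have : (0 : ℝ) ≤ s := Nat.cast_nonneg s; linarith
    have e1 := h3 (10000 * N) (5 * (10000 * N)) (by omega) (by omega) α β Y y hy z hz s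
    rw [← hx] at e1
    have hw1 := hw (10000 * N) (by omega) x hx1
    rw [hcast] at hw1
    have hp1 := hp N hN1 x hx1
    rw [← hn] at hp1
    have hwt : wt (10000 * N) (5 * (10000 * N)) x ≤
        Real.exp (n * Ph (x / n) - 3 * n * Real.log n + C1 * Real.log (n + x)) := by
      rw [← Real.exp_log hw1.1]
      exact Real.exp_le_exp.2 hw1.2
    have hPY0 : PY (YN N) x = Real.exp (∑ y ∈ YN N, Real.log (|x - y| + 1)) := by
      rw [Real.exp_sum]
      exact prod_congr rfl fun u _ => (Real.exp_log (by positivity)).symm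
    have hPY : PY Y x ≤ Real.exp (2 * Real.log (n + x) + (n * UU (x / n) + 4 * n * Real.log n +
        C2 * Real.log (n + x))) := by
      rw [Real.exp_add]
      have e3 : Real.exp (2 * Real.log (n + x)) = (n + x) ^ 2 := by
        rw [two_mul, Real.exp_add, Real.exp_log (by linarith), sq]
      rw [e3]
      refine (hY x hx1).trans (mul_le_mul_of_nonneg_left ?_ (by positivity))
      rw [hPY0]
      exact Real.exp_le_exp.2 hp1
    have hPY2 : PY Y x ^ 2 ≤ Real.exp (2 * (2 * Real.log (n + x) + (n * UU (x / n) + 4 * n * Real.log n +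
        C2 * Real.log (n + x)))) := by
      rw [two_mul (2 * Real.log (n + x) + _), Real.exp_add, ← sq]
      exact pow_le_pow_left₀ (PY_pos _ _).le hPY 2
    have hhalf : (1 / 2 : ℝ) ^ (s + 1) = Real.exp (-(x * Real.log 2)) := by
      rw [hx]
      rw [← Real.exp_log (show (0 : ℝ) < 1 / 2 by norm_num), ← Real.exp_nat_mul]
      congr 1
      rw [one_div, Real.log_inv]
      push_cast
      ring
    have hmul : wt (10000 * N) (5 * (10000 * N)) x * PY Y x ^ 2 ≤
        Real.exp (n * Ph (x / n) - 3 * n * Real.log n + C1 * Real.log (n + x)) *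
        Real.exp (2 * (2 * Real.log (n + x) + (n * UU (x / n) + 4 * n * Real.log n +
        C2 * Real.log (n + x)))) :=
      mul_le_mul hwt hPY2 (by positivity) (Real.exp_pos _).le
    have hex := expo h5 h6 hC30 hn1 hnC hx1
    have hfin : (1 / 2 : ℝ) ^ (s + 1) * (wt (10000 * N) (5 * (10000 * N)) x * PY Y x ^ 2) ≤
        Real.exp (-1.38 * n + 5 * n * Real.log n + C3 * (2 * Real.log n) + 26) * Real.exp (-(x / n)) := by
      rw [hhalf]
      refine (mul_le_mul_of_nonneg_left hmul (Real.exp_pos _).le).trans ?_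
      rw [← Real.exp_add, ← Real.exp_add, ← Real.exp_add]
      apply Real.exp_le_exp.2
      rw [hC3] at hex ⊢
      linarith
    have hr : Real.exp (-(1 / n)) * Real.exp (-(1 / n)) ^ s = Real.exp (-(x / n)) := by
      rw [← Real.exp_nat_mul, ← Real.exp_add]
      congr 1
      rw [hx]
      field_simp
      ring
    rw [hr, hK]
    refine e1.trans ?_
    have hb : (((5 * (10000 * N) : ℕ) : ℝ) + 2) = 5 * n + 2 := by rw [hn]; push_cast; ring
    rw [hb]
    have hαβ : 0 ≤ (|α| + |β|) * (5 * n + 2) := by positivity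
    calc (1 / 2 : ℝ) ^ (s + 1) * ((|α| + |β|) * (5 * n + 2)) * (wt (10000 * N) (5 * (10000 * N)) x * PY Y x ^ 2)
        = ((|α| + |β|) * (5 * n + 2)) * ((1 / 2 : ℝ) ^ (s + 1) *
          (wt (10000 * N) (5 * (10000 * N)) x * PY Y x ^ 2)) := by ring
      _ ≤ ((|α| + |β|) * (5 * n + 2)) * (Real.exp (-1.38 * n + 5 * n * Real.log n + C3 * (2 * Real.log n) + 26) *
          Real.exp (-(x / n))) := mul_le_mul_of_nonneg_left hfin hαβ
      _ = _ := by ring
  have hr0 : 0 ≤ Real.exp (-(1 / n)) := (Real.exp_pos _).le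
  have hr1 : Real.exp (-(1 / n)) < 1 := by
    rw [Real.exp_lt_one_iff]
    have : 0 < 1 / n := by positivity
    linarith
  have hgeo : HasSum (fun s : ℕ => K * (Real.exp (-(1 / n)) * Real.exp (-(1 / n)) ^ s))
      (K * (Real.exp (-(1 / n)) * (1 - Real.exp (-(1 / n)))⁻¹)) :=
    ((hasSum_geometric_of_lt_one hr0 hr1).mul_left _).mul_left _
  have hbd := tsum_of_norm_bounded hgeo hterm
  rw [(hT (lag Y y * lag Y z)).tsum_eq, Real.norm_eq_abs] at hbd
  refine hbd.trans ?_
  have hgn : Real.exp (-(1 / n)) * (1 - Real.exp (-(1 / n)))⁻¹ ≤ n := by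
    rw [← div_eq_mul_inv, div_le_iff₀ (by linarith)]
    have h9 : 1 / n + 1 ≤ Real.exp (1 / n) := Real.add_one_le_exp _
    have h10 : Real.exp (-(1 / n)) * Real.exp (1 / n) = 1 := by
      rw [← Real.exp_add]; simp
    have h11 : Real.exp (-(1 / n)) * (1 / n + 1) ≤ 1 := by
      have h15 := mul_le_mul_of_nonneg_left h9 hr0
      rw [h10] at h15
      exact h15
    have h12 : n * (1 / n) = 1 := by field_simp
    have h13 : n * (Real.exp (-(1 / n)) * (1 / n + 1)) ≤ n * 1 := mul_le_mul_of_nonneg_left h11 hn0.le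
    have h14 : n * (Real.exp (-(1 / n)) * (1 / n + 1)) = Real.exp (-(1 / n)) * (n * (1 / n)) + n * Real.exp (-(1 / n)) := by
      ring
    rw [h14, h12] at h13
    linarith
  refine (mul_le_mul_of_nonneg_left hgn hK0).trans ?_
  rw [hK]
  have e5 : (5 * n + 2) * n ≤ Real.exp (3 * Real.log n) := by
    have : Real.exp (3 * Real.log n) = n ^ 3 := by
      have e6 : (3 : ℝ) * Real.log n = ((3 : ℕ) : ℝ) * Real.log n := by norm_num
      rw [e6, Real.exp_nat_mul, Real.exp_log hn0]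
    rw [this]
    nlinarith [sq_nonneg n]
  calc (|α| + |β|) * (5 * n + 2) * Real.exp (-1.38 * n + 5 * n * Real.log n + C3 * (2 * Real.log n) + 26) * n
      = (|α| + |β|) * (((5 * n + 2) * n) * Real.exp (-1.38 * n + 5 * n * Real.log n + C3 * (2 * Real.log n) + 26)) := by
        ring
    _ ≤ (|α| + |β|) * (Real.exp (3 * Real.log n) *
        Real.exp (-1.38 * n + 5 * n * Real.log n + C3 * (2 * Real.log n) + 26)) := by
        apply mul_le_mul_of_nonneg_left _ (by positivity)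
        exact mul_le_mul_of_nonneg_right e5 (Real.exp_pos _).le
    _ ≤ _ := by
        apply mul_le_mul_of_nonneg_left _ (by positivity)
        rw [← Real.exp_add]
        apply Real.exp_le_exp.2
        nlinarith

/-- the logarithm grows slowly -/
lemma log_small (K : ℝ) : ∃ N0 : ℕ, ∀ N ≥ N0, K * Real.log (10000 * (N : ℝ)) ≤ 0.1 * (10000 * (N : ℝ)) := by
  have h1 := Real.isLittleO_log_id_atTop.bound (show (0 : ℝ) < 0.1 / (|K| + 1) by positivity)
  rw [Filter.eventually_atTop] at h1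
  obtain ⟨A, hA⟩ := h1
  refine ⟨⌈|A|⌉₊ + 1, fun N hN => ?_⟩
  have h2 : |A| + 1 ≤ N := by
    have h3 := Nat.le_ceil |A|
    have h4 : ((⌈|A|⌉₊ + 1 : ℕ) : ℝ) ≤ N := by exact_mod_cast hN
    push_cast at h4
    linarith
  have hA0 := abs_nonneg A
  have hA1 := le_abs_self A
  have h5 := hA (10000 * (N : ℝ)) (by linarith)
  have h6 : 0 ≤ Real.log (10000 * (N : ℝ)) := Real.log_nonneg (by linarith)
  simp only [id, Real.norm_eq_abs] at h5
  rw [abs_of_nonneg h6, abs_of_nonneg (by linarith : (0 : ℝ) ≤ 10000 * (N : ℝ))] at h5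
  have hK0 := abs_nonneg K
  have h7 : (|K| + 1) * Real.log (10000 * (N : ℝ)) ≤ (|K| + 1) * (0.1 / (|K| + 1) * (10000 * (N : ℝ))) :=
    mul_le_mul_of_nonneg_left h5 (by positivity)
  have h8 : (|K| + 1) * (0.1 / (|K| + 1) * (10000 * (N : ℝ))) = 0.1 * (10000 * (N : ℝ)) := by
    field_simp
  rw [h8] at h7
  refine le_trans ?_ h7
  apply mul_le_mul_of_nonneg_right _ h6
  linarith [le_abs_self K]

theorem arch_of (h1 : S_lagr) (h2 : S_bridge) (h3 : S_entry) (h4 : S_weight) (h5 : S_cert) (h6 : S_tail)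
    (h7 : S_QQ) (α β γ : ℤ) (hr : (γ : ℝ) + α * Real.log 2 + β * TH50.DL.dilog = 0) :
    ∃ c : ℝ, 0 < c ∧ ∃ N0 : ℕ, ∀ N ≥ N0, ∀ m : ℕ, 4 * (10000 * N) - 1 ≤ m → m ≤ 4 * (10000 * N) + 1 →
      |((TH50.DL.DD (10000 * N) (5 * (10000 * N)) m α β γ : ℚ) : ℝ)| ≤ c ^ m *
        Real.exp (4 * (10000 * (N : ℝ)) ^ 2 * Real.log (10000 * (N : ℝ)) - 20.4 * (10000 * (N : ℝ)) ^ 2) := by
  obtain ⟨C, hC, N1, hT⟩ := T_bound h3 h4 h5 h6
  obtain ⟨C4, hC4, hE⟩ := A_energy
  obtain ⟨c, hc⟩ : ∃ c : ℝ, c = |(α : ℝ)| + |(β : ℝ)| + 1 := ⟨_, rfl⟩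
  have hc1 : 1 ≤ c := by rw [hc]; have := abs_nonneg (α : ℝ); have := abs_nonneg (β : ℝ); linarith
  obtain ⟨N2, hN2⟩ := log_small (C4 + 5 * C + 40)
  refine ⟨c, by linarith, N1 + N2 + 1, ?_⟩
  intro N hN m hm1 hm2
  have hN1 : 1 ≤ N := by omega
  have hlog := hN2 N (by omega)
  obtain ⟨Y, hYc, hYP, hYE⟩ := sets N m hN1 hm1 hm2
  obtain ⟨T, hTL, hTs⟩ := h2 (10000 * N) (5 * (10000 * N)) (by omega) (by omega) α β γ (by push_cast; exact hr)
  have hTb := hT N (by omega) ((α : ℚ) : ℝ) ((β : ℚ) : ℝ) Y hYP T hTs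
  have hEn := hE N hN1
  rw [E2_eq] at hEn
  have hN0 : (1 : ℝ) ≤ N := by exact_mod_cast hN1
  have hmn : (m : ℝ) ≤ 4 * (10000 * N) + 1 := by exact_mod_cast hm2
  have hmn2 : 4 * (10000 * (N : ℝ)) - 1 ≤ m := by
    have : 4 * (10000 * N) ≤ m + 1 := by omega
    have h9 : ((4 * (10000 * N) : ℕ) : ℝ) ≤ ((m + 1 : ℕ) : ℝ) := by exact_mod_cast this
    push_cast at h9
    linarith
  obtain ⟨n, hn⟩ : ∃ n : ℝ, n = 10000 * N := ⟨_, rfl⟩
  rw [← hn] at hTb hEn hYE hlog hmn hmn2 ⊢
  have hn0 : 0 < n := by linarith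
  have hn1 : 10000 ≤ n := by linarith
  have hL1 : 1 ≤ Real.log n := by
    rw [Real.le_log_iff_exp_le (by linarith)]
    linarith [Real.exp_one_lt_d9]
  obtain ⟨A, hA⟩ : ∃ A : ℝ, A = c * Real.exp (-1.38 * n + 5 * n * Real.log n + C * Real.log n) := ⟨_, rfl⟩
  have hA0 : 0 ≤ A := by rw [hA]; positivity
  have hdet := h1 Y T A hA0 (fun y hy z hz => (hTb y hy z hz).trans (by
    rw [hA, hc]
    apply mul_le_mul_of_nonneg_right _ (Real.exp_pos _).le
    push_cast
    linarith))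
  -- the product of the differences
  obtain ⟨V, hV⟩ : ∃ V : ℝ, V = ∏ y ∈ Y, ∏ z ∈ Y.erase y, |y - z| := ⟨_, rfl⟩
  rw [← hV] at hdet
  have hne : ∀ y ∈ Y, ∀ z ∈ Y.erase y, |y - z| ≠ 0 := by
    intro y _ z hz
    exact abs_ne_zero.2 (sub_ne_zero.2 (Ne.symm (ne_of_mem_erase hz)))
  have hVpos : 0 < V := by
    rw [hV]
    exact prod_pos fun y hy => prod_pos fun z hz => lt_of_le_of_ne (abs_nonneg _) (Ne.symm (hne y hy z hz))
  have hVlog : Real.log V = E2 Y := by
    rw [hV, Real.log_prod (fun y hy => prod_ne_zero_iff.2 (hne y hy)), ← E2_eq]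
    exact sum_congr rfl fun y hy => Real.log_prod (fun z hz => hne y hy z hz)
  -- the determinant
  have hDD : |((TH50.DL.DD (10000 * N) (5 * (10000 * N)) m α β γ : ℚ) : ℝ)| =
      |(Matrix.of fun i j : Fin m => T (X ^ ((i : ℕ) + (j : ℕ)))).det| := by
    congr 1
    unfold TH50.DL.DD
    have e0 : ∀ M : Matrix (Fin m) (Fin m) ℚ, ((M.det : ℚ) : ℝ) =
        ((algebraMap ℚ ℝ).mapMatrix M).det := by
      intro M
      rw [← RingHom.map_det]
      rfl
    rw [e0]
    congr 1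
    ext i j
    simp only [RingHom.mapMatrix_apply, Matrix.map_apply, Matrix.of_apply]
    exact hTL _
  rw [hDD]
  have hfac : ((Y.card).factorial : ℝ) ≤ Real.exp (m * Real.log m) := by
    rw [hYc]
    have hm0 : (0 : ℝ) < m := by linarith
    rw [mul_comm, Real.exp_mul, Real.exp_log hm0, Real.rpow_natCast]
    exact_mod_cast Nat.factorial_le_pow m
  have hAm : A ^ m = c ^ m * Real.exp (m * (-1.38 * n + 5 * n * Real.log n + C * Real.log n)) := by
    rw [hA, mul_pow, ← Real.exp_nat_mul]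
  rw [hYc, hAm] at hdet
  rw [hYc] at hfac
  have hc0 : 0 < c := by linarith
  have hfin : |(Matrix.of fun i j : Fin m => T (X ^ ((i : ℕ) + (j : ℕ)))).det| ≤ c ^ m *
      Real.exp (m * Real.log m + m * (-1.38 * n + 5 * n * Real.log n + C * Real.log n) - Real.log V) := by
    rw [Real.exp_sub, Real.exp_log hVpos, mul_div_assoc', le_div_iff₀ hVpos, Real.exp_add]
    refine hdet.trans ?_
    calc (m.factorial : ℝ) * (c ^ m * Real.exp (m * (-1.38 * n + 5 * n * Real.log n + C * Real.log n)))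
        = c ^ m * ((m.factorial : ℝ) * Real.exp (m * (-1.38 * n + 5 * n * Real.log n + C * Real.log n))) := by ring
      _ ≤ c ^ m * (Real.exp (m * Real.log m) *
          Real.exp (m * (-1.38 * n + 5 * n * Real.log n + C * Real.log n))) := by
          apply mul_le_mul_of_nonneg_left _ (by positivity)
          exact mul_le_mul_of_nonneg_right hfac (Real.exp_pos _).le
  refine hfin.trans (mul_le_mul_of_nonneg_left (Real.exp_le_exp.2 ?_) (by positivity))
  rw [hVlog]
  have hm0 : (0 : ℝ) < m := by linarith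
  have hlogm : Real.log m ≤ 2 * Real.log n := by
    rw [two_mul, ← Real.log_mul hn0.ne' hn0.ne']
    apply Real.log_le_log hm0
    nlinarith
  have hQ : (15 : ℝ) ≤ QQ := h7
  have b1 : (m : ℝ) * Real.log m ≤ 10 * (n * Real.log n) := by
    have h9 : (m : ℝ) ≤ 5 * n := by linarith
    calc (m : ℝ) * Real.log m ≤ m * (2 * Real.log n) := mul_le_mul_of_nonneg_left hlogm hm0.le
      _ ≤ (5 * n) * (2 * Real.log n) := mul_le_mul_of_nonneg_right h9 (by linarith)
      _ = 10 * (n * Real.log n) := by ring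
  have b2 : (m : ℝ) * (-1.38 * n) ≤ -5.52 * n ^ 2 + 2 * n := by nlinarith
  have b3 : (m : ℝ) * (5 * n * Real.log n) ≤ 20 * (n ^ 2 * Real.log n) + 5 * (n * Real.log n) := by
    have : 0 ≤ 5 * n * Real.log n := by positivity
    nlinarith
  have b4 : (m : ℝ) * (C * Real.log n) ≤ 5 * C * (n * Real.log n) := by
    have h9 : (m : ℝ) ≤ 5 * n := by linarith
    have : 0 ≤ C * Real.log n := by positivity
    nlinarith
  have b5 : (15 : ℝ) * n ^ 2 ≤ QQ * n ^ 2 := mul_le_mul_of_nonneg_right hQ (sq_nonneg n)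
  have b6 : (C4 + 5 * C + 40) * Real.log n * n ≤ 0.1 * n * n := mul_le_mul_of_nonneg_right hlog hn0.le
  have b7 : n ≤ n * Real.log n := by nlinarith
  have b8 : 20.4 * n ^ 2 = 20.52 * n ^ 2 - 0.12 * n ^ 2 := by ring
  nlinarith [hEn, hYE, b1, b2, b3, b4, b5, b6, b7]

end

end Pool.Agent.TH844.DL
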