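import Pool.Agent.TH844.DL.Defs
import Pool.Agent.H102R2.Z5.Brick

/-! Sums over combs, compared exactly with integrals. -/

open Finset Pool.Agent.H337R2

namespace Pool.Agent.TH844.DL

noncomputable section

lemma Psi_ge' {x y : ℝ} (hx : 0 < x) (hy : 0 < y) : (y - x) * Real.log x ≤ Psi y - Psi x :=
  H102R2.Z5.Psi_sub_ge hx hy

lemma Psi_le' {x y : ℝ} (hx : 0 < x) (hy : 0 < y) : Psi y - Psi x ≤ (y - x) * Real.log y :=
  H102R2.Z5.Psi_sub_le hx hy

lemma Psi_neg' (u : ℝ) : Psi (-u) = -Psi u := H102R2.Z5.Psi_neg u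

lemma Psi_zero' : Psi 0 = 0 := H102R2.Z5.Psi_zero

/-- integral of `log (|t| + r)` from `0` to `z` -/
def La (r z : ℝ) : ℝ := if 0 ≤ z then Psi (z + r) - Psi r else -(Psi (-z + r) - Psi r)

lemma La_pos {r z : ℝ} (hz : 0 ≤ z) : La r z = Psi (z + r) - Psi r := if_pos hz

lemma La_neg {r z : ℝ} (hz : z ≤ 0) : La r z = -(Psi (-z + r) - Psi r) := by
  rcases hz.lt_or_eq with h | h
  · exact if_neg (not_le.2 h)
  · subst h; rw [La_pos le_rfl]; simp

lemma La_step {d z : ℝ} (hd : 0 < d) :
    d * Real.log (|z| + 1) ≤ La (1 + d / 2) (z + d / 2) - La (1 + d / 2) (z - d / 2) := by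
  rcases le_total (d / 2) |z| with h | h
  · rcases le_total 0 z with hz | hz
    · rw [abs_of_nonneg hz] at h ⊢
      rw [La_pos (by linarith), La_pos (by linarith)]
      have := Psi_ge' (x := z - d / 2 + (1 + d / 2)) (y := z + d / 2 + (1 + d / 2)) (by linarith) (by linarith)
      have e1 : z - d / 2 + (1 + d / 2) = z + 1 := by ring
      have e2 : z + d / 2 + (1 + d / 2) - (z - d / 2 + (1 + d / 2)) = d := by ring
      rw [e2, e1] at this
      rw [e1]
      linarith
    · rw [abs_of_nonpos hz] at h ⊢
      rw [La_neg (by linarith), La_neg (by linarith)]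
      have := Psi_ge' (x := -(z + d / 2) + (1 + d / 2)) (y := -(z - d / 2) + (1 + d / 2)) (by linarith) (by linarith)
      have e1 : -(z + d / 2) + (1 + d / 2) = -z + 1 := by ring
      have e2 : -(z - d / 2) + (1 + d / 2) - (-(z + d / 2) + (1 + d / 2)) = d := by ring
      rw [e2, e1] at this
      rw [e1]
      linarith
  · have hz := abs_le.1 h
    rw [La_pos (by linarith), La_neg (by linarith)]
    have h1 := Psi_ge' (x := 1 + d / 2) (y := z + d / 2 + (1 + d / 2)) (by linarith) (by linarith)
    have h2 := Psi_ge' (x := 1 + d / 2) (y := -(z - d / 2) + (1 + d / 2)) (by linarith) (by linarith)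
    have h3 : Real.log (|z| + 1) ≤ Real.log (1 + d / 2) :=
      Real.log_le_log (by positivity) (by linarith)
    have h4 : d * Real.log (|z| + 1) ≤ d * Real.log (1 + d / 2) := mul_le_mul_of_nonneg_left h3 hd.le
    nlinarith

lemma La_sub (r z : ℝ) (hr : 1 ≤ r) : |La r z - Psi z| ≤ r * Real.log (|z| + r) + r := by
  have key : ∀ z : ℝ, 0 ≤ z → |(Psi (z + r) - Psi r) - Psi z| ≤ r * Real.log (z + r) + r := by
    intro z hz
    have hr0 : 0 < r := by linarith
    have hlr : 0 ≤ Real.log r := Real.log_nonneg hr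
    have hlz : 0 ≤ Real.log (z + r) := Real.log_nonneg (by linarith)
    rcases hz.eq_or_lt with h | h
    · subst h
      rw [Psi_zero']
      simp only [zero_add, sub_self, abs_zero]
      positivity
    · rw [abs_le]
      have h1 := Psi_le' (x := z) (y := z + r) h (by linarith)
      have h2 : Psi r = r * Real.log r - r := rfl
      constructor
      · rcases le_total z r with h3 | h3
        · have h4 := Psi_ge' (x := r) (y := z + r) hr0 (by linarith)
          have h5 : Psi z = z * Real.log z - z := rfl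
          have h6 : Real.log z ≤ Real.log r := Real.log_le_log h h3
          have h7 : z * Real.log z ≤ z * Real.log r := mul_le_mul_of_nonneg_left h6 h.le
          nlinarith
        · have h4 := Psi_ge' (x := z) (y := z + r) h (by linarith)
          have h6 : Real.log r ≤ Real.log z := Real.log_le_log hr0 h3
          nlinarith
      · nlinarith
  rcases le_total 0 z with hz | hz
  · rw [La_pos hz, abs_of_nonneg hz]
    exact key z hz
  · rw [La_neg hz, abs_of_nonpos hz]
    have h1 := key (-z) (by linarith)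
    rw [Psi_neg'] at h1
    rw [← abs_neg]
    have e : -(-(Psi (-z + r) - Psi r) - Psi z) = Psi (-z + r) - Psi r - -Psi z := by ring
    rw [e]
    exact h1

/-- the potential of one comb -/
theorem pot_comb (a d s : ℝ) (hd : 0 < d) (n : ℕ) :
    d * ∑ j ∈ range n, Real.log (|s - (a + d * ((j : ℝ) + 1 / 2))| + 1) ≤
      Psi (s - a) - Psi (s - a - d * n) + 2 * ((1 + d / 2) * Real.log (|s - a| + d * n + (1 + d / 2)) + (1 + d / 2)) := by
  have h1 : ∀ j ∈ range n, d * Real.log (|s - (a + d * ((j : ℝ) + 1 / 2))| + 1) ≤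
      La (1 + d / 2) (s - a - d * j) - La (1 + d / 2) (s - a - d * ((j + 1 : ℕ) : ℝ)) := by
    intro j _
    have h := La_step (z := s - (a + d * ((j : ℝ) + 1 / 2))) hd
    have e1 : s - (a + d * ((j : ℝ) + 1 / 2)) + d / 2 = s - a - d * j := by ring
    have e2 : s - (a + d * ((j : ℝ) + 1 / 2)) - d / 2 = s - a - d * ((j + 1 : ℕ) : ℝ) := by push_cast; ring
    rw [e1, e2] at h
    exact h
  rw [mul_sum]
  refine (sum_le_sum h1).trans ?_
  rw [sum_range_sub' (fun j : ℕ => La (1 + d / 2) (s - a - d * (j : ℝ)))]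
  simp only [Nat.cast_zero, mul_zero, sub_zero]
  have h2 := abs_le.1 (La_sub (1 + d / 2) (s - a) (by linarith))
  have h3 := abs_le.1 (La_sub (1 + d / 2) (s - a - d * n) (by linarith))
  have hn : (0 : ℝ) ≤ n := Nat.cast_nonneg n
  have hdn : 0 ≤ d * n := by positivity
  have h4 : Real.log (|s - a| + (1 + d / 2)) ≤ Real.log (|s - a| + d * n + (1 + d / 2)) :=
    Real.log_le_log (by positivity) (by linarith)
  have h5 : Real.log (|s - a - d * n| + (1 + d / 2)) ≤ Real.log (|s - a| + d * n + (1 + d / 2)) := by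
    refine Real.log_le_log (by positivity) ?_
    have := abs_sub (s - a) (d * n)
    rw [abs_of_nonneg hdn] at this
    linarith
  have hr : 0 < 1 + d / 2 := by linarith
  have h6 := mul_le_mul_of_nonneg_left h4 hr.le
  have h7 := mul_le_mul_of_nonneg_left h5 hr.le
  linarith [h2.2, h3.1]

/-! ### energy -/

lemma GG_eq (z : ℝ) : GG z = H102R2.Z5.G2 z := rfl

lemma GG_hasDerivAt (z : ℝ) : HasDerivAt GG (Psi z) z := H102R2.Z5.G2_hasDerivAt z

lemma GG_neg (z : ℝ) : GG (-z) = GG z := H102R2.Z5.G2_neg z

lemma GG_zero : GG 0 = 0 := H102R2.Z5.G2_zero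

/-- the mean of the logarithm over a symmetric interval -/
lemma mid {w p : ℝ} (hp : 0 ≤ p) (hw : p ≤ w) : Psi (w + p) - Psi (w - p) ≤ 2 * p * Real.log w := by
  rcases hp.eq_or_lt with h0 | hp0
  · subst h0; simp
  have hw0 : 0 < w := by linarith
  have hcP : Continuous Psi := by
    have : Psi = fun z => z * Real.log z - z := rfl
    rw [this]
    exact Real.continuous_mul_log.sub continuous_id
  set φ : ℝ → ℝ := fun t => 2 * t * Real.log w - Psi (w + t) + Psi (w - t) with hφ
  have hcont : Continuous φ := by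
    refine ((((continuous_const.mul continuous_id).mul continuous_const).sub
      (hcP.comp (continuous_const.add continuous_id)))).add (hcP.comp (continuous_const.sub continuous_id))
  have hder : ∀ t ∈ Set.Ioo 0 w, HasDerivAt φ (2 * Real.log w - Real.log (w + t) - Real.log (w - t)) t := by
    intro t ht
    have h1 : HasDerivAt (fun t : ℝ => 2 * t * Real.log w) (2 * Real.log w) t := by
      have := ((hasDerivAt_id t).const_mul 2).mul_const (Real.log w)
      simpa using this
    have h2 : HasDerivAt (fun t : ℝ => Psi (w + t)) (Real.log (w + t)) t :=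
      (hasDerivAt_Psi (by linarith [ht.1] : w + t ≠ 0)).comp_const_add w t
    have h3 : HasDerivAt (fun t : ℝ => Psi (w - t)) (-Real.log (w - t)) t :=
      (hasDerivAt_Psi (by linarith [ht.2] : w - t ≠ 0)).comp_const_sub w t
    have := (h1.sub h2).add h3
    rw [← sub_eq_add_neg] at this
    exact this
  have hmono : MonotoneOn φ (Set.Icc 0 w) := by
    apply monotoneOn_of_deriv_nonneg (convex_Icc 0 w) hcont.continuousOn
    · intro t ht
      rw [interior_Icc] at ht
      exact (hder t ht).differentiableAt.differentiableWithinAt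
    · intro t ht
      rw [interior_Icc] at ht
      rw [(hder t ht).deriv]
      have h4 : Real.log (w + t) + Real.log (w - t) ≤ 2 * Real.log w := by
        have hpos : 0 < w - t := by linarith [ht.2]
        have hpos2 : 0 < w + t := by linarith [ht.1]
        rw [← Real.log_mul hpos2.ne' hpos.ne']
        have e : 2 * Real.log w = Real.log (w ^ 2) := by rw [Real.log_pow]; norm_num
        rw [e]
        apply Real.log_le_log (mul_pos hpos2 hpos)
        nlinarith [sq_nonneg t]
      linarith
  have h5 := hmono (Set.left_mem_Icc.2 hw0.le) ⟨hp, hw⟩ hp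
  simp only [hφ] at h5
  simp at h5
  linarith

/-- the mean over two cells -/
lemma cell {z p q : ℝ} (hp : 0 ≤ p) (hq : 0 ≤ q) (hz : p + q ≤ z) :
    GG (z + p + q) - GG (z + p - q) - GG (z - p + q) + GG (z - p - q) ≤ 4 * p * q * Real.log z := by
  rcases hq.eq_or_lt with h0 | hq0
  · subst h0; simp
  have hz0 : 0 < z := by linarith
  set φ : ℝ → ℝ := fun t => 4 * p * t * Real.log z -
    (GG (z + p + t) - GG (z + p - t) - GG (z - p + t) + GG (z - p - t)) with hφ
  have hder : ∀ t : ℝ, HasDerivAt φ (4 * p * Real.log z -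
      (Psi (z + p + t) + Psi (z + p - t) - Psi (z - p + t) - Psi (z - p - t))) t := by
    intro t
    have h1 : HasDerivAt (fun t : ℝ => 4 * p * t * Real.log z) (4 * p * Real.log z) t := by
      have := ((hasDerivAt_id t).const_mul (4 * p)).mul_const (Real.log z)
      simpa using this
    have h2 : HasDerivAt (fun t : ℝ => GG (z + p + t)) (Psi (z + p + t)) t :=
      (GG_hasDerivAt _).comp_const_add (z + p) t
    have h3 : HasDerivAt (fun t : ℝ => GG (z + p - t)) (-Psi (z + p - t)) t :=
      (GG_hasDerivAt _).comp_const_sub (z + p) t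
    have h4 : HasDerivAt (fun t : ℝ => GG (z - p + t)) (Psi (z - p + t)) t :=
      (GG_hasDerivAt _).comp_const_add (z - p) t
    have h5 : HasDerivAt (fun t : ℝ => GG (z - p - t)) (-Psi (z - p - t)) t :=
      (GG_hasDerivAt _).comp_const_sub (z - p) t
    have := h1.sub (((h2.sub h3).sub h4).add h5)
    refine this.congr_deriv ?_
    ring
  have hmono : MonotoneOn φ (Set.Icc 0 (z - p)) := by
    apply monotoneOn_of_deriv_nonneg (convex_Icc 0 (z - p))
      (fun t _ => (hder t).continuousAt.continuousWithinAt)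
    · intro t _
      exact (hder t).differentiableAt.differentiableWithinAt
    · intro t ht
      rw [interior_Icc] at ht
      rw [(hder t).deriv]
      have h1 := mid (w := z + t) (p := p) hp (by linarith [ht.1])
      have h2 := mid (w := z - t) (p := p) hp (by linarith [ht.2])
      have hpos : 0 < z - t := by linarith [ht.2]
      have hpos2 : 0 < z + t := by linarith [ht.1]
      have h4 : Real.log (z + t) + Real.log (z - t) ≤ 2 * Real.log z := by
        rw [← Real.log_mul hpos2.ne' hpos.ne']
        have e : 2 * Real.log z = Real.log (z ^ 2) := by rw [Real.log_pow]; norm_num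
        rw [e]
        apply Real.log_le_log (mul_pos hpos2 hpos)
        nlinarith [sq_nonneg t]
      have h5 : 2 * p * (Real.log (z + t) + Real.log (z - t)) ≤ 2 * p * (2 * Real.log z) :=
        mul_le_mul_of_nonneg_left h4 (by linarith)
      have e1 : z + t + p = z + p + t := by ring
      have e2 : z + t - p = z - p + t := by ring
      have e3 : z - t + p = z + p - t := by ring
      have e4 : z - t - p = z - p - t := by ring
      rw [e1, e2] at h1
      rw [e3, e4] at h2
      linarith
  have h5 := hmono (Set.left_mem_Icc.2 (by linarith)) ⟨hq, (by linarith : q ≤ z - p)⟩ hq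
  simp only [hφ] at h5
  simp at h5
  linarith

/-- bracket of two intervals `[a, a']`, `[b, b']` -/
def br (a a' b b' : ℝ) : ℝ := GG (a' - b) - GG (a - b) - GG (a' - b') + GG (a - b')

/-- two cells with disjoint interiors -/
lemma cell_br {a a' b b' : ℝ} (ha : a ≤ a') (hb : b ≤ b') (h : a' ≤ b ∨ b' ≤ a) :
    br a a' b b' ≤ (a' - a) * (b' - b) * Real.log |(a + a') / 2 - (b + b') / 2| := by
  rcases h with h | h
  · have h1 := cell (z := (b + b') / 2 - (a + a') / 2) (p := (a' - a) / 2) (q := (b' - b) / 2) (by linarith)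
      (by linarith) (by linarith)
    rw [abs_sub_comm, abs_of_nonneg (by linarith)]
    unfold br
    have e1 : (b + b') / 2 - (a + a') / 2 + (a' - a) / 2 + (b' - b) / 2 = -(a - b') := by ring
    have e2 : (b + b') / 2 - (a + a') / 2 + (a' - a) / 2 - (b' - b) / 2 = -(a - b) := by ring
    have e3 : (b + b') / 2 - (a + a') / 2 - (a' - a) / 2 + (b' - b) / 2 = -(a' - b') := by ring
    have e4 : (b + b') / 2 - (a + a') / 2 - (a' - a) / 2 - (b' - b) / 2 = -(a' - b) := by ring
    rw [e1, e2, e3, e4, GG_neg, GG_neg, GG_neg, GG_neg] at h1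
    linarith
  · have h1 := cell (z := (a + a') / 2 - (b + b') / 2) (p := (a' - a) / 2) (q := (b' - b) / 2) (by linarith)
      (by linarith) (by linarith)
    rw [abs_of_nonneg (by linarith)]
    unfold br
    have e1 : (a + a') / 2 - (b + b') / 2 + (a' - a) / 2 + (b' - b) / 2 = a' - b := by ring
    have e2 : (a + a') / 2 - (b + b') / 2 + (a' - a) / 2 - (b' - b) / 2 = a' - b' := by ring
    have e3 : (a + a') / 2 - (b + b') / 2 - (a' - a) / 2 + (b' - b) / 2 = a - b := by ring
    have e4 : (a + a') / 2 - (b + b') / 2 - (a' - a) / 2 - (b' - b) / 2 = a - b' := by ring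
    rw [e1, e2, e3, e4] at h1
    linarith

/-- sums of brackets telescope -/
lemma br_sum (a c b d : ℝ) (m n : ℕ) :
    ∑ i ∈ range m, ∑ j ∈ range n, br (a + c * i) (a + c * ((i + 1 : ℕ) : ℝ)) (b + d * j) (b + d * ((j + 1 : ℕ) : ℝ)) =
      br a (a + c * m) b (b + d * n) := by
  have h1 : ∀ (x x' : ℝ), ∑ j ∈ range n, br x x' (b + d * j) (b + d * ((j + 1 : ℕ) : ℝ)) = br x x' b (b + d * n) := by
    intro x x'
    have h := sum_range_sub' (fun j : ℕ => GG (x' - (b + d * (j : ℝ))) - GG (x - (b + d * (j : ℝ)))) n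
    simp only [Nat.cast_zero, mul_zero, add_zero] at h
    unfold br
    rw [show GG (x' - b) - GG (x - b) - GG (x' - (b + d * n)) + GG (x - (b + d * n)) =
      GG (x' - b) - GG (x - b) - (GG (x' - (b + d * n)) - GG (x - (b + d * n))) by ring, ← h]
    exact sum_congr rfl fun j _ => by ring
  simp only [h1]
  have h2 := sum_range_sub (fun i : ℕ => GG (a + c * (i : ℝ) - b) - GG (a + c * (i : ℝ) - (b + d * n))) m
  simp only [Nat.cast_zero, mul_zero, add_zero] at h2
  unfold br
  rw [show GG (a + c * m - b) - GG (a - b) - GG (a + c * m - (b + d * n)) + GG (a - (b + d * n)) =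
    GG (a + c * m - b) - GG (a + c * m - (b + d * n)) - (GG (a - b) - GG (a - (b + d * n))) by ring, ← h2]
  exact sum_congr rfl fun i _ => by ring

/-- diagonal cells -/
lemma br_diag (a c : ℝ) : br a (a + c) a (a + c) = c ^ 2 * Real.log c - 3 / 2 * c ^ 2 := by
  unfold br
  have e1 : a + c - a = c := by ring
  have e2 : a - (a + c) = -c := by ring
  rw [e1, e2, GG_neg, sub_self, sub_self, GG_zero]
  unfold GG
  ring

lemma GG_scale {n : ℝ} (hn : 0 < n) (z : ℝ) : GG (n * z) = n ^ 2 * GG z + n ^ 2 * Real.log n * (z ^ 2 / 2) := by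
  unfold GG
  rcases eq_or_ne z 0 with h | h
  · subst h; simp
  · rw [Real.log_mul hn.ne' h]; ring

lemma Psi_scale {n : ℝ} (hn : 0 < n) (z : ℝ) : Psi (n * z) = n * Psi z + n * Real.log n * z := by
  unfold Psi
  rcases eq_or_ne z 0 with h | h
  · subst h; simp
  · rw [Real.log_mul hn.ne' h]; ring

lemma br_scale {n : ℝ} (hn : 0 < n) (a a' b b' : ℝ) :
    br (n * a) (n * a') (n * b) (n * b') = n ^ 2 * br a a' b b' + n ^ 2 * Real.log n * ((a' - a) * (b' - b)) := by
  unfold br
  rw [← mul_sub, ← mul_sub, ← mul_sub, ← mul_sub, GG_scale hn, GG_scale hn, GG_scale hn, GG_scale hn]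
  ring

end

end Pool.Agent.TH844.DL
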