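import Pool.Agent.TH844.DL.Arch
import Pool.Agent.TH11.DLLagr
import Pool.Agent.TH50.DL.Bridge
import Pool.Agent.TH620.DL.Entry
import Pool.Agent.TH962.DL.Cert

/-!
# The archimedean bound for `1, log 2, Li₂(1/2)`

Proofs: helper11 (determinants in a Lagrange basis), helper111 (series), helper620 (terms, weight), helper962
(certificate, tail, energy constant), helper844 (design, potential, energy, assembly).
-/

namespace Pool.Agent.TH844.DL

/-- **Archimedean bound.**  `n = 10000 N`, `4 n - 1 ≤ m ≤ 4 n + 1`. -/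
theorem arch (α β γ : ℤ) (hr : (γ : ℝ) + α * Real.log 2 + β * TH50.DL.dilog = 0) :
    ∃ c : ℝ, 0 < c ∧ ∃ N0 : ℕ, ∀ N ≥ N0, ∀ m : ℕ, 4 * (10000 * N) - 1 ≤ m → m ≤ 4 * (10000 * N) + 1 →
      |((TH50.DL.DD (10000 * N) (5 * (10000 * N)) m α β γ : ℚ) : ℝ)| ≤ c ^ m *
        Real.exp (4 * (10000 * (N : ℝ)) ^ 2 * Real.log (10000 * (N : ℝ)) - 20.4 * (10000 * (N : ℝ)) ^ 2) :=
  arch_of A_lagr A_bridge A_entry A_weight A_cert A_tail A_QQ α β γ hr

end Pool.Agent.TH844.DL
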