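import Pool.Agent.TH50.DL.Defs
import Pool.Agent.H337R2.PsiCert3

/-!
# Archimedean bound for `1, log 2, Li₂(1/2)`: definitions

`n = 10000 N`.  The `4 n` real nodes form ten combs (bricks) on `[0, 16.83 n]`: brick `i` lies in
`[kk i / 100 * n, kk (i+1) / 100 * n]` and has density `dd i / 100`.
-/

open Polynomial Pool.Agent.H337R2 Pool.Agent.LP

namespace Pool.Agent.TH844.DL

noncomputable section

/-- break points (in hundredths) -/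
def kk (i : ℕ) : ℕ := [0, 1, 16, 51, 108, 205, 365, 552, 844, 1162, 1683].getD i 0

/-- densities (in hundredths) -/
def dd (i : ℕ) : ℕ := [1482, 243, 113, 74, 50, 34, 23, 17, 11, 7].getD i 0

/-- number of nodes of brick `i`, divided by `N` -/
def ct (i : ℕ) : ℕ := dd i * (kk (i + 1) - kk i)

/-- node `j` of brick `i` -/
def node (N i j : ℕ) : ℝ := 100 * N * kk i + 100 / dd i * ((j : ℝ) + 1 / 2)

/-- the index set -/
def IN (N : ℕ) : Finset (Σ _ : ℕ, ℕ) := (Finset.range 10).sigma fun i => Finset.range (ct i * N)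

/-- the set of the nodes -/
def YN (N : ℕ) : Finset ℝ := (IN N).image fun p => node N p.1 p.2

/-- potential of the bricks (scaled) -/
def UU (v : ℝ) : ℝ :=
  ∑ i ∈ Finset.range 10, (dd i : ℝ) / 100 * (Psi (v - kk i / 100) - Psi (v - kk (i + 1) / 100))

/-- second antiderivative of `log |z|` -/
def GG (z : ℝ) : ℝ := z ^ 2 / 2 * Real.log z - 3 / 4 * z ^ 2

/-- energy of the bricks (scaled) -/
def QQ : ℝ :=
  ∑ i ∈ Finset.range 10, ∑ j ∈ Finset.range 10, ((dd i : ℝ) / 100) * ((dd j : ℝ) / 100) *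
    (GG ((kk (i + 1) : ℝ) / 100 - kk j / 100) - GG ((kk i : ℝ) / 100 - kk j / 100) -
      GG ((kk (i + 1) : ℝ) / 100 - kk (j + 1) / 100) + GG ((kk i : ℝ) / 100 - kk (j + 1) / 100))

/-- scaled logarithm of the weight -/
def Ph (v : ℝ) : ℝ := 2 * Psi (v + 1) - Psi v - Psi (v + 5)

/-- the rational function `x (x+1) ⋯ (x+a-1) / ((x+a) ⋯ (x+b))` -/
def wt (a b : ℕ) (x : ℝ) : ℝ := (∏ i ∈ Finset.range a, (x + i)) / ∏ k ∈ Finset.Icc a b, (x + k)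

/-- the terms of the series of the linear form -/
def tm (a b : ℕ) (α β : ℝ) (f : ℝ[X]) (s : ℕ) : ℝ :=
  (1 / 2) ^ (s + 1) * (-α * (f.eval ((s : ℝ) + 1) * wt a b ((s : ℝ) + 1)) +
    β * ((derivative f).eval ((s : ℝ) + 1) * wt a b ((s : ℝ) + 1) +
      f.eval ((s : ℝ) + 1) * deriv (wt a b) ((s : ℝ) + 1)))

/-- Lagrange polynomials of a finite set -/
def lag (Y : Finset ℝ) (y : ℝ) : ℝ[X] := ∏ z ∈ Y.erase y, (X - C z)

/-- majorant of the Lagrange polynomials and their derivatives -/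
def PY (Y : Finset ℝ) (s : ℝ) : ℝ := ∏ u ∈ Y, (|s - u| + 1)

/-! ## The tasks -/

/-- determinants in a Lagrange basis -/
def S_lagr : Prop := ∀ (Y : Finset ℝ) (T : ℝ[X] →ₗ[ℝ] ℝ) (A : ℝ), 0 ≤ A →
  (∀ y ∈ Y, ∀ z ∈ Y, |T (lag Y y * lag Y z)| ≤ A) →
  |(Matrix.of fun i j : Fin Y.card => T (X ^ ((i : ℕ) + (j : ℕ)))).det| *
    ∏ y ∈ Y, ∏ z ∈ Y.erase y, |y - z| ≤ (Y.card.factorial : ℝ) * A ^ Y.card

/-- the linear form as a convergent series -/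
def S_bridge : Prop := ∀ (a b : ℕ), 1 ≤ a → a ≤ b → ∀ α β γ : ℚ,
  (γ : ℝ) + α * Real.log 2 + β * TH50.DL.dilog = 0 →
  ∃ T : ℝ[X] →ₗ[ℝ] ℝ, (∀ i : ℕ, ((TH50.DL.L a b α β γ (X ^ i) : ℚ) : ℝ) = T (X ^ i)) ∧
    ∀ f : ℝ[X], HasSum (tm a b α β f) (T f)

/-- bound of one term -/
def S_entry : Prop := ∀ (a b : ℕ), 1 ≤ a → a ≤ b → ∀ (α β : ℝ) (Y : Finset ℝ), ∀ y ∈ Y, ∀ z ∈ Y, ∀ s : ℕ,
  |tm a b α β (lag Y y * lag Y z) s| ≤
    (1 / 2) ^ (s + 1) * ((|α| + |β|) * (b + 2)) * (wt a b ((s : ℝ) + 1) * PY Y ((s : ℝ) + 1) ^ 2)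

/-- the weight -/
def S_weight : Prop := ∃ C : ℝ, 0 < C ∧ ∀ n : ℕ, 1 ≤ n → ∀ s : ℝ, 1 ≤ s →
  0 < wt n (5 * n) s ∧ Real.log (wt n (5 * n) s) ≤ n * Ph (s / n) - 3 * n * Real.log n + C * Real.log (n + s)

/-- the nodes: cardinality and range -/
def S_card : Prop := ∀ N : ℕ, 1 ≤ N → (YN N).card = 40000 * N ∧ ∀ y ∈ YN N, 0 < y ∧ y < 168300 * N

/-- the potential -/
def S_pot : Prop := ∃ C : ℝ, 0 < C ∧ ∀ N : ℕ, 1 ≤ N → ∀ s : ℝ, 1 ≤ s →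
  ∑ y ∈ YN N, Real.log (|s - y| + 1) ≤ (10000 * N) * UU (s / (10000 * N)) +
    4 * (10000 * N) * Real.log (10000 * N) + C * Real.log (10000 * N + s)

/-- the energy -/
def S_energy : Prop := ∃ C : ℝ, 0 < C ∧ ∀ N : ℕ, 1 ≤ N →
  QQ * (10000 * N) ^ 2 + 16 * (10000 * N) ^ 2 * Real.log (10000 * N) -
    C * (10000 * N) * Real.log (10000 * N) ≤ ∑ y ∈ YN N, ∑ z ∈ (YN N).erase y, Real.log |y - z|

/-- certificate (true maximum `-1.4354`) -/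
def S_cert : Prop := ∀ v : ℝ, 0 ≤ v → v ≤ 26 → 2 * UU v + Ph v ≤ 0.6931 * v - 1.38

/-- tail -/
def S_tail : Prop := ∀ v : ℝ, 26 ≤ v → 2 * UU v + Ph v ≤ 0.6931 * v - 1.38 - (v - 26) / 4

/-- energy constant (true value `15.0388`) -/
def S_QQ : Prop := 15 ≤ QQ

end

end Pool.Agent.TH844.DL
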